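import Pool.Agent.H575R2.Farkas

set_option autoImplicit false

/-!
# Weighted bipartite matchings: dual potentials
-/

namespace Pool.Agent.TH438.FC

open Finset

variable {Y J : Type} [Fintype Y] [DecidableEq Y] [Fintype J] [DecidableEq J]

/-- Substochastic matrices are averages of partial matchings. -/
lemma subst_match (P β : Y → J → ℝ) (A : ℝ)
    (hA : ∀ f : Y → Option J, (∀ y y' j, f y = some j → f y' = some j → y = y') →
      ∑ y, (f y).elim 0 (P y) ≤ A)
    (h0 : ∀ y j, 0 ≤ β y j) (hr : ∀ y, ∑ j, β y j ≤ 1) (hc : ∀ j, ∑ y, β y j ≤ 1) :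
    ∑ y, ∑ j, β y j * P y j ≤ A := by
  classical
  set M : Matrix (Y ⊕ J) (Y ⊕ J) ℝ := Matrix.fromBlocks
    (Matrix.diagonal fun y => 1 - ∑ j, β y j) (Matrix.of β) (Matrix.of fun j y => β y j)
    (Matrix.diagonal fun j => 1 - ∑ y, β y j) with hMdef
  have hM : M ∈ doublyStochastic ℝ (Y ⊕ J) := by
    rw [mem_doublyStochastic_iff_sum]
    refine ⟨?_, ?_, ?_⟩
    · rintro (y | j) (y' | j')
      · simp only [hMdef, Matrix.fromBlocks_apply₁₁, Matrix.diagonal_apply]
        split_ifs
        · linarith [hr y]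
        · exact le_rfl
      · simpa [hMdef] using h0 y j'
      · simpa [hMdef] using h0 y' j
      · simp only [hMdef, Matrix.fromBlocks_apply₂₂, Matrix.diagonal_apply]
        split_ifs
        · linarith [hc j]
        · exact le_rfl
    · rintro (y | j)
      · simp [hMdef, Fintype.sum_sum_type, Matrix.diagonal_apply]
      · simp [hMdef, Fintype.sum_sum_type, Matrix.diagonal_apply]
    · rintro (y | j)
      · simp [hMdef, Fintype.sum_sum_type, Matrix.diagonal_apply]
      · simp [hMdef, Fintype.sum_sum_type, Matrix.diagonal_apply]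
  obtain ⟨w, hw0, hw1, hwM⟩ := exists_eq_sum_perm_of_mem_doublyStochastic hM
  have hent : ∀ y j, β y j = ∑ σ : Equiv.Perm (Y ⊕ J),
      w σ * (if σ (Sum.inl y) = Sum.inr j then 1 else 0) := by
    intro y j
    have h1 : M (Sum.inl y) (Sum.inr j) = β y j := by simp [hMdef]
    rw [← h1, ← hwM, Matrix.sum_apply]
    refine sum_congr rfl fun σ _ => ?_
    rw [Matrix.smul_apply, smul_eq_mul]
    congr 1
    rw [Equiv.Perm.permMatrix, PEquiv.toMatrix_apply, Equiv.toPEquiv_apply]
    simp only [Option.mem_def, Option.some.injEq]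
  have h1 : ∑ y, ∑ j, β y j * P y j = ∑ σ : Equiv.Perm (Y ⊕ J), w σ *
      ∑ y, ((σ (Sum.inl y)).getRight?).elim 0 (P y) := by
    have h2 : ∀ y, ∑ j, β y j * P y j = ∑ σ : Equiv.Perm (Y ⊕ J), w σ *
        ((σ (Sum.inl y)).getRight?).elim 0 (P y) := by
      intro y
      rw [sum_congr rfl fun j _ => by rw [hent y j, sum_mul], sum_comm]
      refine sum_congr rfl fun σ _ => ?_
      rw [sum_congr rfl fun j _ => mul_assoc _ _ _, ← mul_sum]
      congr 1
      rcases h3 : σ (Sum.inl y) with y' | j'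
      · simp
      · simp only [Sum.getRight?_inr, Option.elim_some, Sum.inr.injEq, ite_mul, one_mul,
          zero_mul]
        rw [sum_ite_eq]
        simp
    rw [sum_congr rfl fun y _ => h2 y, sum_comm]
    exact sum_congr rfl fun σ _ => by rw [mul_sum]
  rw [h1]
  calc ∑ σ : Equiv.Perm (Y ⊕ J), w σ * ∑ y, ((σ (Sum.inl y)).getRight?).elim 0 (P y)
      ≤ ∑ σ : Equiv.Perm (Y ⊕ J), w σ * A := by
        refine sum_le_sum fun σ _ => mul_le_mul_of_nonneg_left (hA _ ?_) (hw0 σ)
        intro y y' j h h'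
        rw [Sum.getRight?_eq_some_iff] at h h'
        have := σ.injective (h.trans h'.symm)
        exact Sum.inl.inj this
    _ = A := by rw [← sum_mul, hw1, one_mul]

/-- **Egerváry's theorem**: dual potentials for weighted bipartite matchings. -/
theorem egervary (P : Y → J → ℝ) (A : ℝ)
    (hA : ∀ f : Y → Option J, (∀ y y' j, f y = some j → f y' = some j → y = y') →
      ∑ y, (f y).elim 0 (P y) ≤ A) :
    ∃ (u : Y → ℝ) (v : J → ℝ), (∀ y, 0 ≤ u y) ∧ (∀ j, 0 ≤ v j) ∧
      (∀ y j, P y j ≤ u y + v j) ∧ ∑ y, u y + ∑ j, v j ≤ A := by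
  classical
  let row : Y → ((Y → J → ℝ) × ℝ →ₗ[ℝ] ℝ) := fun y =>
    { toFun := fun z => ∑ j, z.1 y j - z.2
      map_add' := fun z z' => by
        simp only [Prod.fst_add, Prod.snd_add, Pi.add_apply, sum_add_distrib]
        ring
      map_smul' := fun r z => by
        simp only [Prod.smul_fst, Prod.smul_snd, Pi.smul_apply, smul_eq_mul, ← mul_sum,
          RingHom.id_apply]
        ring }
  let col : J → ((Y → J → ℝ) × ℝ →ₗ[ℝ] ℝ) := fun j =>
    { toFun := fun z => ∑ y, z.1 y j - z.2
      map_add' := fun z z' => by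
        simp only [Prod.fst_add, Prod.snd_add, Pi.add_apply, sum_add_distrib]
        ring
      map_smul' := fun r z => by
        simp only [Prod.smul_fst, Prod.smul_snd, Pi.smul_apply, smul_eq_mul, ← mul_sum,
          RingHom.id_apply]
        ring }
  let ent : Y × J → ((Y → J → ℝ) × ℝ →ₗ[ℝ] ℝ) := fun q =>
    { toFun := fun z => -z.1 q.1 q.2
      map_add' := fun z z' => by
        simp only [Prod.fst_add, Pi.add_apply]
        ring
      map_smul' := fun r z => by
        simp only [Prod.smul_fst, Pi.smul_apply, smul_eq_mul, RingHom.id_apply]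
        ring }
  let neg : (Y → J → ℝ) × ℝ →ₗ[ℝ] ℝ :=
    { toFun := fun z => -z.2
      map_add' := fun z z' => by
        simp only [Prod.snd_add]
        ring
      map_smul' := fun r z => by
        simp only [Prod.smul_snd, smul_eq_mul, RingHom.id_apply]
        ring }
  let F : (Y → J → ℝ) × ℝ →ₗ[ℝ] ℝ :=
    { toFun := fun z => ∑ y, ∑ j, z.1 y j * P y j - z.2 * A
      map_add' := fun z z' => by
        simp only [Prod.fst_add, Prod.snd_add, Pi.add_apply, add_mul, sum_add_distrib]
        ring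
      map_smul' := fun r z => by
        simp only [Prod.smul_fst, Prod.smul_snd, Pi.smul_apply, smul_eq_mul, mul_assoc,
          ← mul_sum, RingHom.id_apply]
        ring }
  let ι := ((Y × J) ⊕ Y) ⊕ (J ⊕ Unit)
  let ℓ : ι → ((Y → J → ℝ) × ℝ →ₗ[ℝ] ℝ) := Sum.elim (Sum.elim ent row)
    (Sum.elim col fun _ => neg)
  let e := Fintype.equivFin ι
  obtain ⟨w, hw, hf⟩ := H575R2.farkas_lin (Fintype.card ι) (fun i => ℓ (e.symm i)) F (by
    intro z hz
    have hz' : ∀ i : ι, ℓ i z ≤ 0 := fun i => by
      have := hz (e i)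
      rwa [Equiv.symm_apply_apply] at this
    have h1 : ∀ y j, 0 ≤ z.1 y j := fun y j => by
      have h : -z.1 y j ≤ 0 := hz' (Sum.inl (Sum.inl (y, j)))
      linarith
    have h2 : ∀ y, ∑ j, z.1 y j ≤ z.2 := fun y => by
      have h : ∑ j, z.1 y j - z.2 ≤ 0 := hz' (Sum.inl (Sum.inr y))
      linarith
    have h3 : ∀ j, ∑ y, z.1 y j ≤ z.2 := fun j => by
      have h : ∑ y, z.1 y j - z.2 ≤ 0 := hz' (Sum.inr (Sum.inl j))
      linarith
    have h4 : 0 ≤ z.2 := by
      have h : -z.2 ≤ 0 := hz' (Sum.inr (Sum.inr ()))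
      linarith
    show ∑ y, ∑ j, z.1 y j * P y j - z.2 * A ≤ 0
    rcases h4.lt_or_eq with h5 | h5
    · have h6 := subst_match P (fun y j => z.1 y j / z.2) A hA
        (fun y j => div_nonneg (h1 y j) h4)
        (fun y => by rw [← sum_div, div_le_one h5]; exact h2 y)
        (fun j => by rw [← sum_div, div_le_one h5]; exact h3 j)
      have h7 : ∑ y, ∑ j, z.1 y j / z.2 * P y j = (∑ y, ∑ j, z.1 y j * P y j) / z.2 := by
        rw [sum_div]
        refine sum_congr rfl fun y _ => ?_
        rw [sum_div]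
        exact sum_congr rfl fun j _ => by ring
      rw [h7, div_le_iff₀ h5] at h6
      linarith
    · have h6 : ∀ y j, z.1 y j = 0 := fun y j => by
        have h7 := single_le_sum (f := fun j => z.1 y j) (fun j _ => h1 y j) (mem_univ j)
        have h8 := h2 y
        have h9 := h1 y j
        linarith
      have h7 : ∑ y, ∑ j, z.1 y j * P y j = 0 :=
        sum_eq_zero fun y _ => sum_eq_zero fun j _ => by rw [h6, zero_mul]
      rw [h7, ← h5]
      simp)
  have hf' : ∀ z, F z = (∑ q : Y × J, w (e (Sum.inl (Sum.inl q))) * ent q z +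
      ∑ y, w (e (Sum.inl (Sum.inr y))) * row y z) +
      (∑ j, w (e (Sum.inr (Sum.inl j))) * col j z +
      w (e (Sum.inr (Sum.inr ()))) * neg z) := by
    intro z
    rw [hf z, ← Equiv.sum_comp e, Fintype.sum_sum_type, Fintype.sum_sum_type,
      Fintype.sum_sum_type]
    simp only [Equiv.symm_apply_apply]
    simp [ℓ]
  refine ⟨fun y => w (e (Sum.inl (Sum.inr y))), fun j => w (e (Sum.inr (Sum.inl j))),
    fun y => hw _, fun j => hw _, fun y j => ?_, ?_⟩
  · have h1 := hf' (fun y' j' => if y' = y ∧ j' = j then 1 else 0, 0)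
    have e1 : F (fun y' j' => if y' = y ∧ j' = j then 1 else 0, 0) = P y j := by
      show ∑ y', ∑ j', (if y' = y ∧ j' = j then (1 : ℝ) else 0) * P y' j' - 0 * A = P y j
      rw [sum_eq_single y, sum_eq_single j]
      · simp
      · intro j' _ hj'; simp [hj']
      · simp
      · intro y' _ hy'; simp [hy']
      · simp
    have e2 : ∑ q : Y × J, w (e (Sum.inl (Sum.inl q))) *
        ent q (fun y' j' => if y' = y ∧ j' = j then 1 else 0, 0) ≤ 0 := by
      refine sum_nonpos fun q _ => ?_
      have h2 : ent q (fun y' j' => if y' = y ∧ j' = j then 1 else 0, 0) ≤ 0 := by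
        show -(if q.1 = y ∧ q.2 = j then (1 : ℝ) else 0) ≤ 0
        split_ifs <;> norm_num
      exact mul_nonpos_of_nonneg_of_nonpos (hw _) h2
    have e3 : ∑ y', w (e (Sum.inl (Sum.inr y'))) *
        row y' (fun y' j' => if y' = y ∧ j' = j then 1 else 0, 0) =
        w (e (Sum.inl (Sum.inr y))) := by
      rw [sum_eq_single y]
      · show _ * (∑ j', (if y = y ∧ j' = j then (1 : ℝ) else 0) - 0) = _
        simp
      · intro y' _ hy'
        show _ * (∑ j', (if y' = y ∧ j' = j then (1 : ℝ) else 0) - 0) = _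
        simp [hy']
      · simp
    have e4 : ∑ j', w (e (Sum.inr (Sum.inl j'))) *
        col j' (fun y' j' => if y' = y ∧ j' = j then 1 else 0, 0) =
        w (e (Sum.inr (Sum.inl j))) := by
      rw [sum_eq_single j]
      · show _ * (∑ y', (if y' = y ∧ j = j then (1 : ℝ) else 0) - 0) = _
        simp
      · intro j' _ hj'
        show _ * (∑ y', (if y' = y ∧ j' = j then (1 : ℝ) else 0) - 0) = _
        simp [hj']
      · simp
    have e5 : neg (fun y' j' => if y' = y ∧ j' = j then 1 else 0, 0) = 0 := by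
      show -(0 : ℝ) = 0
      simp
    rw [e1, e3, e4, e5] at h1
    simp only
    linarith
  · have h1 := hf' (0, 1)
    have e1 : F (0, 1) = -A := by
      show ∑ y', ∑ j', (0 : ℝ) * P y' j' - 1 * A = -A
      simp
    have e2 : ∑ q : Y × J, w (e (Sum.inl (Sum.inl q))) * ent q (0, 1) = 0 := by
      refine sum_eq_zero fun q _ => ?_
      have h2 : ent q (0, 1) = 0 := by
        show -(0 : ℝ) = 0
        simp
      rw [h2, mul_zero]
    have e3 : ∑ y', w (e (Sum.inl (Sum.inr y'))) * row y' (0, 1) =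
        -∑ y', w (e (Sum.inl (Sum.inr y'))) := by
      rw [← sum_neg_distrib]
      refine sum_congr rfl fun y' _ => ?_
      have h2 : row y' (0, 1) = -1 := by
        show ∑ j', (0 : ℝ) - 1 = -1
        simp
      rw [h2]; ring
    have e4 : ∑ j', w (e (Sum.inr (Sum.inl j'))) * col j' (0, 1) =
        -∑ j', w (e (Sum.inr (Sum.inl j'))) := by
      rw [← sum_neg_distrib]
      refine sum_congr rfl fun j' _ => ?_
      have h2 : col j' (0, 1) = -1 := by
        show ∑ y', (0 : ℝ) - 1 = -1
        simp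
      rw [h2]; ring
    have e5 : neg (0, 1) = -1 := rfl
    rw [e1, e2, e3, e4, e5] at h1
    have h2 := hw (e (Sum.inr (Sum.inr ())))
    simp only
    linarith

end Pool.Agent.TH438.FC
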