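import Pool.Agent.TH438.FC.Three
import Pool.Agent.TH438.FC.Eger

set_option autoImplicit false
set_option linter.unusedVariables false

/-!
# Any number of moving marks that meet in pairs
-/

namespace Pool.Agent.TH438.FC

open Finset Pool.Agent.Results.MP_23e236_ag.CollisionColouring

variable {p : ℕ}

section core

variable (h : Finset (Fin p) → ℝ) (hs : ∀ S : Finset (Fin p), S.card ≤ 2 → h S = 0)
  (hF : ∀ A B C : Finset (Fin p), A.Nonempty → B.Nonempty → C.Nonempty →
    Disjoint A B → Disjoint A C → Disjoint B C →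
    h (A ∪ B) + h (A ∪ C) + h (B ∪ C) ≤ h (A ∪ B ∪ C) + h A + h B + h C)

open Classical in
/-- The weights of the matching problem of the mark `x`. -/
noncomputable def W (K : Finset (Fin p)) (x y : Fin p) (o : Option (Fin p)) : ℝ :=
  if y ∉ K ∧ y ≠ x ∧ o ∈ insertNone K then pd h x y o else 0

include hs hF

/-- The partial matchings of the mark `x` are bounded by its degree. -/
lemma matching (K : Finset (Fin p)) (x : Fin p) (hx : x ∉ K) (f : Fin p → Option (Option (Fin p)))
    (hf : ∀ y y' j, f y = some j → f y' = some j → y = y') :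
    ∑ y, (f y).elim 0 (W h K x y) ≤ Ad h x := by
  classical
  set s : Finset (Fin p) := univ.filter fun y => y ∉ K ∧ y ≠ x ∧ ∃ i ∈ K, f y = some (some i)
    with hsdef
  set t : Finset (Fin p) := univ.filter fun y => y ∉ K ∧ y ≠ x ∧ f y = some none with htdef
  set B : Fin p → Finset (Fin p) := fun y =>
    insert y (univ.filter fun i => f y = some (some i)) with hB
  have hBs : ∀ y i, f y = some (some i) → B y = {i, y} := by
    intro y i hi
    ext v
    simp only [hB, mem_insert, mem_filter, mem_univ, true_and, hi, Option.some.injEq,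
      mem_singleton]
    constructor
    · rintro (h | h)
      · exact Or.inr h
      · exact Or.inl h.symm
    · rintro (h | h)
      · exact Or.inr h.symm
      · exact Or.inl h
  have hval : ∀ y, (f y).elim 0 (W h K x y) =
      (if y ∈ s then h (insert x (B y)) - h (B y) else 0) +
      (if y ∈ t then pd h x y none else 0) := by
    intro y
    rcases hfy : f y with _ | (_ | i)
    · have h1 : y ∉ s := by
        rw [hsdef, mem_filter]
        rintro ⟨_, _, _, i, _, hi⟩
        rw [hfy] at hi
        exact absurd hi (by simp)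
      have h2 : y ∉ t := by
        rw [htdef, mem_filter]
        rintro ⟨_, _, _, hi⟩
        rw [hfy] at hi
        exact absurd hi (by simp)
      rw [if_neg h1, if_neg h2]
      simp
    · have h1 : y ∉ s := by
        rw [hsdef, mem_filter]
        rintro ⟨_, _, _, i, _, hi⟩
        rw [hfy] at hi
        exact absurd hi (by simp)
      rw [if_neg h1, zero_add, Option.elim_some]
      unfold W
      by_cases hy : y ∉ K ∧ y ≠ x
      · rw [if_pos ⟨hy.1, hy.2, none_mem_insertNone⟩, if_pos]
        rw [htdef, mem_filter]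
        exact ⟨mem_univ _, hy.1, hy.2, hfy⟩
      · rw [if_neg (fun h' => hy ⟨h'.1, h'.2.1⟩), if_neg]
        rw [htdef, mem_filter]
        exact fun h' => hy ⟨h'.2.1, h'.2.2.1⟩
    · have h2 : y ∉ t := by
        rw [htdef, mem_filter]
        rintro ⟨_, _, _, hi⟩
        rw [hfy] at hi
        exact absurd hi (by simp)
      rw [if_neg h2, add_zero, Option.elim_some]
      unfold W
      by_cases hy : y ∉ K ∧ y ≠ x ∧ i ∈ K
      · rw [if_pos ⟨hy.1, hy.2.1, some_mem_insertNone.2 hy.2.2⟩, if_pos]
        · rw [hBs y i hfy, hs {i, y} card_le_two, sub_zero]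
          simp only [pd]
          congr 1
          ext v
          simp only [mem_insert, mem_singleton]
          tauto
        · rw [hsdef, mem_filter]
          exact ⟨mem_univ _, hy.1, hy.2.1, i, hy.2.2, hfy⟩
      · rw [if_neg (fun h' => hy ⟨h'.1, h'.2.1, some_mem_insertNone.1 h'.2.2⟩), if_neg]
        rw [hsdef, mem_filter]
        rintro ⟨_, h3, h4, i', hi', h5⟩
        rw [hfy] at h5
        have : i = i' := by simpa using h5
        exact hy ⟨h3, h4, this ▸ hi'⟩
  rw [sum_congr rfl fun y _ => hval y, sum_add_distrib, ← sum_filter, ← sum_filter]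
  have e1 : univ.filter (fun y => y ∈ s) = s := by ext y; simp
  have e2 : univ.filter (fun y => y ∈ t) = t := by ext y; simp
  rw [e1, e2]
  have hdis : ∀ y ∈ s, ∀ y' ∈ s, y ≠ y' → Disjoint (B y) (B y') := by
    intro y hy y' hy' hne
    rw [hsdef, mem_filter] at hy hy'
    obtain ⟨_, hyK, hyx, i, hi, hfi⟩ := hy
    obtain ⟨_, hyK', hyx', i', hi', hfi'⟩ := hy'
    rw [hBs y i hfi, hBs y' i' hfi', disjoint_left]
    intro v hv hv'
    rw [mem_insert, mem_singleton] at hv hv'
    rcases hv with rfl | rfl
    · rcases hv' with rfl | rfl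
      · exact hne (hf _ _ _ hfi hfi')
      · exact hyK' hi
    · rcases hv' with rfl | rfl
      · exact hyK hi'
      · exact hne rfl
  have hsub : ∀ y ∈ s, ∀ U : Finset (Fin p), K ⊆ U → y ∈ U → B y ⊆ U := by
    intro y hy U hKU hyU
    rw [hsdef, mem_filter] at hy
    obtain ⟨_, hyK, hyx, i, hi, hfi⟩ := hy
    rw [hBs y i hfi]
    intro v hv
    rw [mem_insert, mem_singleton] at hv
    rcases hv with rfl | rfl
    · exact hKU hi
    · exact hyU
  have hxy : ∀ y ∈ s, y ≠ x := fun y hy => by
    rw [hsdef, mem_filter] at hy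
    exact hy.2.2.1
  have eu : insert x (univ.erase x) = (univ : Finset (Fin p)) := by simp
  rcases t.eq_empty_or_nonempty with ht | ⟨z, hz⟩
  · rw [ht, sum_empty, add_zero]
    have h1 := family h hs hF x s B (univ.erase x) (by simp)
      (fun y hy => hsub y hy _ (fun v hv => mem_erase.2 ⟨fun h' => hx (h' ▸ hv), mem_univ _⟩)
        (mem_erase.2 ⟨hxy y hy, mem_univ _⟩)) hdis
    rw [eu] at h1
    exact h1
  · have ht : t = {z} := by
      refine eq_singleton_iff_unique_mem.2 ⟨hz, fun y hy => ?_⟩
      rw [htdef, mem_filter] at hy hz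
      exact hf _ _ _ hy.2.2.2 hz.2.2.2
    rw [ht, sum_singleton]
    rw [htdef, mem_filter] at hz
    obtain ⟨_, hzK, hzx, hfz⟩ := hz
    have hzs : ∀ y ∈ s, y ≠ z := by
      rintro y hy rfl
      rw [hsdef, mem_filter] at hy
      obtain ⟨_, _, _, i, _, hi⟩ := hy
      rw [hfz] at hi
      exact absurd hi (by simp)
    have h1 := family h hs hF x s B ((univ.erase x).erase z) (by simp)
      (fun y hy => hsub y hy _
        (fun v hv => mem_erase.2 ⟨fun h' => hzK (h' ▸ hv),
          mem_erase.2 ⟨fun h' => hx (h' ▸ hv), mem_univ _⟩⟩)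
        (mem_erase.2 ⟨hzs y hy, mem_erase.2 ⟨hxy y hy, mem_univ _⟩⟩)) hdis
    have e3 : insert x ((univ.erase x).erase z) = univ.erase z := by
      ext v; simp only [mem_insert, mem_erase, mem_univ]; grind
    rw [e3] at h1
    simp only [pd, Ad]
    linarith

/-- The potentials of the mark `x`. -/
lemma potentials (K : Finset (Fin p)) (x : Fin p) (hx : x ∉ K) :
    ∃ (u : Fin p → ℝ) (v : Option (Fin p) → ℝ), (∀ y, 0 ≤ u y) ∧ (∀ o, 0 ≤ v o) ∧
      (∀ y, y ∉ K → y ≠ x → ∀ o ∈ insertNone K, pd h x y o ≤ u y + v o) ∧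
      ∑ y, u y + ∑ o, v o ≤ Ad h x := by
  obtain ⟨u, v, h1, h2, h3, h4⟩ := egervary (W h K x) (Ad h x) (matching h hs hF K x hx)
  refine ⟨u, v, h1, h2, fun y hy hyx o ho => ?_, h4⟩
  have h5 := h3 y o
  unfold W at h5
  rwa [if_pos ⟨hy, hyx, ho⟩] at h5

end core

/-- Removing a mark from a pair function. -/
lemma pair_erase (f : Fin p → Fin p → ℝ) (hf : ∀ u, f u u = 0) (S : Finset (Fin p)) (x : Fin p)
    (hx : x ∈ S) : ∑ u ∈ S, ∑ v ∈ S, f u v =
      ∑ u ∈ S.erase x, ∑ v ∈ S.erase x, f u v + ∑ v ∈ S.erase x, (f x v + f v x) := by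
  rw [← add_sum_erase S _ hx]
  have h1 : ∑ v ∈ S, f x v = ∑ v ∈ S.erase x, f x v := by
    rw [← add_sum_erase S _ hx, hf, zero_add]
  have h2 : ∑ u ∈ S.erase x, ∑ v ∈ S, f u v =
      ∑ u ∈ S.erase x, f u x + ∑ u ∈ S.erase x, ∑ v ∈ S.erase x, f u v := by
    rw [← sum_add_distrib]
    exact sum_congr rfl fun u _ => by rw [← add_sum_erase S _ hx]
  rw [h1, h2, sum_add_distrib]
  ring

/-- **Marks meeting in pairs.** -/
theorem pairs {c : Finset (Fin p) → ℝ} (hc : IsDivisor c) (hF : FNef c)
    {m : Finset (Fin p) → ℕ} {d : ℕ} (hm : IsCurve m d) (K : Finset (Fin p)) (hK : 2 ≤ K.card)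
    (hmeet : ∀ S, m S ≠ 0 → ((S ∩ K).card ≤ 1 ∧ (S \ K).card ≤ 2) ∨ (K ⊆ S ∧ Sᶜ.card ≤ 2)) :
    0 ≤ degree c m := by
  classical
  have hsm := H_small hc
  have hpot := fun (x : Fin p) (hx : x ∉ K) => potentials (H c) hsm (H_F hF) K x hx
  choose! u v hu hv huv hsum using hpot
  -- the weights
  set w : Fin p → Fin p → ℝ := fun x y => min (u x y) (u y x) with hw
  have hwc : ∀ x y, w x y = w y x := fun x y => min_comm _ _
  set f : Fin p → Fin p → ℝ := fun x y =>
    (if x ∉ K ∧ y ∉ K ∧ x ≠ y then w x y / 2 else 0) +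
      (if x ∈ K ∧ y ∉ K then v y (some x) else 0) with hfdef
  have hf0 : ∀ x, f x x = 0 := by
    intro x
    simp only [hfdef]
    rw [if_neg (fun h => h.2.2 rfl), if_neg (fun h => h.2 h.1), add_zero]
  have hfnn : ∀ x y, 0 ≤ f x y := by
    intro x y
    simp only [hfdef]
    refine add_nonneg ?_ ?_
    · split_ifs with h
      · exact div_nonneg (le_min (hu x h.1 y) (hu y h.2.1 x)) (by norm_num)
      · exact le_rfl
    · split_ifs with h
      · exact hv y h.2 _
      · exact le_rfl
  have f1 : ∀ x y, x ∉ K → y ∉ K → x ≠ y → f x y + f y x = w x y := by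
    intro x y hx hy hxy
    have a1 : (if x ∉ K ∧ y ∉ K ∧ x ≠ y then w x y / 2 else 0) = w x y / 2 :=
      if_pos ⟨hx, hy, hxy⟩
    have a2 : (if y ∉ K ∧ x ∉ K ∧ y ≠ x then w y x / 2 else 0) = w y x / 2 :=
      if_pos ⟨hy, hx, hxy.symm⟩
    have a3 : (if x ∈ K ∧ y ∉ K then v y (some x) else 0) = 0 := if_neg (fun h => hx h.1)
    have a4 : (if y ∈ K ∧ x ∉ K then v x (some y) else 0) = 0 := if_neg (fun h => hy h.1)
    simp only [hfdef]
    rw [a1, a2, a3, a4, hwc y x]
    ring
  have f2 : ∀ i y, i ∈ K → y ∉ K → f i y + f y i = v y (some i) := by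
    intro i y hi hy
    simp only [hfdef]
    rw [if_neg (fun h => h.1 hi), if_pos ⟨hi, hy⟩, if_neg (fun h => h.2.1 hi),
      if_neg (fun h => hy h.1)]
    ring
  set L : Finset (Fin p) → ℝ := fun S => ∑ x ∈ S, ∑ y ∈ S, f x y with hL
  have hbal : Bal m d L := bal_pair hm f hf0
  have hLnn : ∀ S, 0 ≤ L S := fun S => sum_nonneg fun x _ => sum_nonneg fun y _ => hfnn x y
  have hLe : ∀ S x, x ∈ S → L S = L (S.erase x) + ∑ y ∈ S.erase x, (f x y + f y x) :=
    fun S x hx => pair_erase f hf0 S x hx
  -- the row sums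
  have hrow : ∀ x, x ∉ K → ∑ y ∈ univ.erase x, (f x y + f y x) ≤
      ∑ y ∈ univ.erase x, (if y ∉ K then w x y else 0) + ∑ i : Fin p, v x (some i) := by
    intro x hx
    have h1 : ∀ y ∈ univ.erase x, f x y + f y x =
        (if y ∉ K then w x y else 0) + (if y ∈ K then v x (some y) else 0) := by
      intro y hy
      by_cases hyK : y ∈ K
      · rw [if_neg (not_not.2 hyK), if_pos hyK, zero_add, ← f2 y x hyK hx]
        ring
      · rw [if_pos hyK, if_neg hyK, add_zero, ← f1 x y hx hyK (mem_erase.1 hy).1.symm]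
    rw [sum_congr rfl h1, sum_add_distrib]
    refine add_le_add le_rfl ?_
    refine (sum_le_sum (g := fun y => v x (some y)) fun y _ => ?_).trans
      (sum_le_sum_of_subset_of_nonneg (subset_univ _) fun y _ _ => hv x hx _)
    split_ifs
    · exact le_rfl
    · exact hv x hx _
  have hopt : ∀ x, x ∉ K → ∑ y, u x y + v x none + ∑ i : Fin p, v x (some i) ≤ Ad (H c) x := by
    intro x hx
    have h1 := hsum x hx
    rw [Fintype.sum_option] at h1
    linarith
  have hrow1 : ∀ x, x ∉ K → ∑ y ∈ univ.erase x, (f x y + f y x) ≤ Ad (H c) x - v x none := by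
    intro x hx
    have h1 := hrow x hx
    have h2 := hopt x hx
    have h3 : ∑ y ∈ univ.erase x, (if y ∉ K then w x y else 0) ≤ ∑ y, u x y := by
      refine (sum_le_sum (g := fun y => u x y) fun y _ => ?_).trans
        (sum_le_sum_of_subset_of_nonneg (subset_univ _) fun y _ _ => hu x hx y)
      split_ifs
      · exact hu x hx y
      · exact min_le_left _ _
    linarith
  have hrow2 : ∀ x z, x ∉ K → z ∉ K → z ≠ x → ∑ y ∈ univ.erase x, (f x y + f y x) ≤
      Ad (H c) x - v x none - (u x z - w x z) := by
    intro x z hx hz hzx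
    have h1 := hrow x hx
    have h2 := hopt x hx
    have h3 : ∑ y ∈ univ.erase x, (if y ∉ K then w x y else 0) ≤
        ∑ y, u x y - (u x z - w x z) := by
      have hzm : z ∈ univ.erase x := mem_erase.2 ⟨hzx, mem_univ _⟩
      rw [← add_sum_erase _ _ hzm, if_pos hz, ← add_sum_erase univ (fun y => u x y) (mem_univ z)]
      have h4 : ∑ y ∈ (univ.erase x).erase z, (if y ∉ K then w x y else 0) ≤
          ∑ y ∈ univ.erase z, u x y := by
        refine (sum_le_sum (g := fun y => u x y) fun y _ => ?_).trans
          (sum_le_sum_of_subset_of_nonneg (erase_subset_erase _ (subset_univ _))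
            fun y _ _ => hu x hx y)
        split_ifs
        · exact hu x hx y
        · exact min_le_left _ _
      linarith
    linarith
  refine dominate hc hm K hK L hbal fun S hS => ?_
  rcases hmeet S hS with ⟨h1, h2⟩ | ⟨h1, h2⟩
  · left
    refine ⟨h1, ?_⟩
    rcases Nat.lt_or_ge S.card 3 with h3 | h3
    · rw [hsm S (by omega)]
      exact hLnn S
    · have hcard : (S ∩ K).card + (S \ K).card = S.card := card_inter_add_card_sdiff S K
      obtain ⟨i, hi⟩ := card_eq_one.1 (show (S ∩ K).card = 1 by omega)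
      obtain ⟨x, y, hxy, hxyS⟩ := card_eq_two.1 (show (S \ K).card = 2 by omega)
      have hiK : i ∈ K := (mem_inter.1 (show i ∈ S ∩ K by rw [hi]; exact mem_singleton_self _)).2
      have hxK : x ∉ K := (mem_sdiff.1 (show x ∈ S \ K by rw [hxyS]; simp)).2
      have hyK : y ∉ K := (mem_sdiff.1 (show y ∈ S \ K by rw [hxyS]; simp)).2
      have hix : i ≠ x := fun h => hxK (h ▸ hiK)
      have hiy : i ≠ y := fun h => hyK (h ▸ hiK)
      have hSe : S = {i, x, y} := by
        have h4 : S = (S ∩ K) ∪ (S \ K) := by rw [union_comm]; exact (sdiff_union_inter S K).symm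
        rw [h4, hi, hxyS]
        ext v'
        simp only [mem_union, mem_insert, mem_singleton]
      have hLS : L S = v x (some i) + v y (some i) + w x y := by
        rw [hSe, hLe {i, x, y} i (by simp)]
        have e1 : ({i, x, y} : Finset (Fin p)).erase i = {x, y} := by
          ext v'; simp only [mem_erase, mem_insert, mem_singleton]; grind
        rw [e1, hLe {x, y} x (by simp)]
        have e2 : ({x, y} : Finset (Fin p)).erase x = {y} := by
          ext v'; simp only [mem_erase, mem_insert, mem_singleton]; grind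
        rw [e2, sum_pair hxy, sum_singleton, f2 i x hiK hxK, f2 i y hiK hyK,
          f1 x y hxK hyK hxy]
        simp only [hL, sum_singleton, hf0]
        ring
      have hh : H c S = pd (H c) x y (some i) := by rw [hSe]; rfl
      have hh' : H c S = pd (H c) y x (some i) := by rw [hh, pd_comm]
      have k1 := huv x hxK y hyK hxy.symm (some i) (some_mem_insertNone.2 hiK)
      have k2 := huv y hyK x hxK hxy (some i) (some_mem_insertNone.2 hiK)
      have k3 := hv x hxK (some i)
      have k4 := hv y hyK (some i)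
      rw [hLS]
      rcases min_choice (u x y) (u y x) with h5 | h5
      · have : w x y = u x y := h5
        rw [hh, this]; linarith
      · have : w x y = u y x := h5
        rw [hh', this]; linarith
  · right
    refine ⟨h1, ?_⟩
    have hcases : Sᶜ.card = 0 ∨ Sᶜ.card = 1 ∨ Sᶜ.card = 2 := by omega
    rcases hcases with h3 | h3 | h3
    · have hSe : S = univ := by
        have : Sᶜ = ∅ := card_eq_zero.1 h3
        rwa [compl_eq_empty_iff] at this
      rw [hSe]
      linarith
    · obtain ⟨x, hx⟩ := card_eq_one.1 h3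
      have hSe : S = univ.erase x := by
        rw [← compl_compl S, hx]
        ext v'; simp
      have hxK : x ∉ K := fun h => by
        have : x ∈ Sᶜ := by rw [hx]; exact mem_singleton_self _
        exact (mem_compl.1 this) (h1 h)
      have k1 := hLe univ x (mem_univ _)
      have k2 := hrow1 x hxK
      have k3 := hv x hxK none
      rw [hSe]
      simp only [Ad] at k2
      linarith
    · obtain ⟨x, y, hxy, hxyS⟩ := card_eq_two.1 h3
      have hSe : S = (univ.erase x).erase y := by
        rw [← compl_compl S, hxyS]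
        ext v'; simp only [mem_compl, mem_insert, mem_singleton, mem_erase, mem_univ]; tauto
      have hxK : x ∉ K := fun h => by
        have : x ∈ Sᶜ := by rw [hxyS]; simp
        exact (mem_compl.1 this) (h1 h)
      have hyK : y ∉ K := fun h => by
        have : y ∈ Sᶜ := by rw [hxyS]; simp
        exact (mem_compl.1 this) (h1 h)
      have k1 := hLe univ x (mem_univ _)
      have k1' := hLe (univ.erase x) y (mem_erase.2 ⟨hxy.symm, mem_univ _⟩)
      have k2 := hrow2 x y hxK hyK hxy.symm
      have k3 := hrow2 y x hyK hxK hxy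
      have k4 : ∑ v' ∈ univ.erase y, (f y v' + f v' y) =
          (f y x + f x y) + ∑ v' ∈ (univ.erase x).erase y, (f y v' + f v' y) := by
        rw [← add_sum_erase (univ.erase y) _ (mem_erase.2 ⟨hxy, mem_univ x⟩),
          erase_right_comm]
      have k5 := f1 y x hyK hxK hxy.symm
      have k6 := huv x hxK y hyK hxy.symm none none_mem_insertNone
      have k7 := huv y hyK x hxK hxy none none_mem_insertNone
      rw [pd_comm] at k7
      have k8 : w y x = w x y := hwc y x
      have k9 : w x y ≤ u x y := min_le_left _ _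
      have k10 : w x y ≤ u y x := min_le_right _ _
      have k11 := hv x hxK none
      have k12 := hv y hyK none
      rw [hSe]
      simp only [Ad, pd] at k2 k3 k6 k7
      rw [k8] at k3 k5
      rcases min_choice (u x y) (u y x) with h5 | h5
      · have : w x y = u x y := h5
        linarith
      · have : w x y = u y x := h5
        linarith

end Pool.Agent.TH438.FC
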