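import Mathlib

set_option autoImplicit false

/-!
# The optimisation lemma for three moving marks
-/

namespace Pool.Agent.TH438.FC

open Finset

set_option linter.unusedSectionVars false

variable {ι : Type} [DecidableEq ι]

/-- The data of three moving marks `a, b, e`: `p, q, r` for the pairs `ab`, `ae`, `be`, `t` for
the triple at a fixed mark, `s` for the free triple, `A, B, E` for the degrees of the marks. -/
structure Data (I : Finset ι) (p q r t : ι → ℝ) (A B E s : ℝ) : Prop where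
  p0 : ∀ i ∈ I, 0 ≤ p i
  q0 : ∀ i ∈ I, 0 ≤ q i
  r0 : ∀ i ∈ I, 0 ≤ r i
  s0 : 0 ≤ s
  ps : ∀ i ∈ I, p i + s ≤ t i
  qs : ∀ i ∈ I, q i + s ≤ t i
  rs : ∀ i ∈ I, r i + s ≤ t i
  pq : ∀ i ∈ I, p i + q i ≤ t i
  pr : ∀ i ∈ I, p i + r i ≤ t i
  qr : ∀ i ∈ I, q i + r i ≤ t i
  A3 : ∀ i ∈ I, t i ≤ A + r i
  B3 : ∀ i ∈ I, t i ≤ B + q i
  E3 : ∀ i ∈ I, t i ≤ E + p i
  A4 : ∀ i ∈ I, ∀ j ∈ I, i ≠ j → p i + q j ≤ A
  B4 : ∀ i ∈ I, ∀ j ∈ I, i ≠ j → p i + r j ≤ B
  E4 : ∀ i ∈ I, ∀ j ∈ I, i ≠ j → q i + r j ≤ E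

/-- The weights of the gauge. -/
def Good (I : Finset ι) (p q r t : ι → ℝ) (A B E s : ℝ) : Prop :=
  ∃ i0 ∈ I, ∃ w1 w2 w3 : ℝ, 0 ≤ w1 ∧ 0 ≤ w2 ∧ 0 ≤ w3 ∧ w1 + w2 ≤ A ∧ w1 + w3 ≤ B ∧
    w2 + w3 ≤ E ∧ s ≤ w1 + w2 + w3 ∧
    (∀ i ∈ I, i ≠ i0 → p i ≤ w1 ∧ q i ≤ w2 ∧ r i ≤ w3 ∧ t i ≤ w1 + w2 + w3) ∧
    p i0 ≤ A + B - (w1 + w2 + w3) ∧ q i0 ≤ A + E - (w1 + w2 + w3) ∧
    r i0 ≤ B + E - (w1 + w2 + w3) ∧ t i0 ≤ A + B + E - (w1 + w2 + w3)

lemma Data.swapAB {I : Finset ι} {p q r t : ι → ℝ} {A B E s : ℝ}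
    (h : Data I p q r t A B E s) : Data I p r q t B A E s where
  p0 := h.p0
  q0 := h.r0
  r0 := h.q0
  s0 := h.s0
  ps := h.ps
  qs := h.rs
  rs := h.qs
  pq := h.pr
  pr := h.pq
  qr := fun i hi => by have := h.qr i hi; linarith
  A3 := h.B3
  B3 := h.A3
  E3 := h.E3
  A4 := h.B4
  B4 := h.A4
  E4 := fun i hi j hj hij => by have := h.E4 j hj i hi (Ne.symm hij); linarith

lemma Data.swapAE {I : Finset ι} {p q r t : ι → ℝ} {A B E s : ℝ}
    (h : Data I p q r t A B E s) : Data I r q p t E B A s where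
  p0 := h.r0
  q0 := h.q0
  r0 := h.p0
  s0 := h.s0
  ps := h.rs
  qs := h.qs
  rs := h.ps
  pq := fun i hi => by have := h.qr i hi; linarith
  pr := fun i hi => by have := h.pr i hi; linarith
  qr := fun i hi => by have := h.pq i hi; linarith
  A3 := h.E3
  B3 := h.B3
  E3 := h.A3
  A4 := fun i hi j hj hij => by have := h.E4 j hj i hi (Ne.symm hij); linarith
  B4 := fun i hi j hj hij => by have := h.B4 j hj i hi (Ne.symm hij); linarith
  E4 := fun i hi j hj hij => by have := h.A4 j hj i hi (Ne.symm hij); linarith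

lemma Good.swapAB {I : Finset ι} {p q r t : ι → ℝ} {A B E s : ℝ}
    (h : Good I p r q t B A E s) : Good I p q r t A B E s := by
  obtain ⟨i0, hi0, w1, w2, w3, h1, h2, h3, h4, h5, h6, h7, h8, h9, h10, h11, h12⟩ := h
  refine ⟨i0, hi0, w1, w3, w2, h1, h3, h2, h5, h4, by linarith, by linarith,
    fun i hi hne => ?_, by linarith, by linarith, by linarith, by linarith⟩
  obtain ⟨a1, a2, a3, a4⟩ := h8 i hi hne
  exact ⟨a1, a3, a2, by linarith⟩

lemma Good.swapAE {I : Finset ι} {p q r t : ι → ℝ} {A B E s : ℝ}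
    (h : Good I r q p t E B A s) : Good I p q r t A B E s := by
  obtain ⟨i0, hi0, w1, w2, w3, h1, h2, h3, h4, h5, h6, h7, h8, h9, h10, h11, h12⟩ := h
  refine ⟨i0, hi0, w3, w2, w1, h3, h2, h1, by linarith, by linarith, by linarith, by linarith,
    fun i hi hne => ?_, by linarith, by linarith, by linarith, by linarith⟩
  obtain ⟨a1, a2, a3, a4⟩ := h8 i hi hne
  exact ⟨a3, a2, a1, by linarith⟩

/-- The weights from the lower bounds `l1, l2, l3` and the total `M`. -/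
lemma weights {I : Finset ι} {p q r t : ι → ℝ} {A B E s : ℝ} (i0 : ι) (hi0 : i0 ∈ I)
    (l1 l2 l3 M : ℝ) (hl1 : 0 ≤ l1) (hl2 : 0 ≤ l2) (hl3 : 0 ≤ l3)
    (hM0 : l1 + l2 + l3 ≤ M) (hMs : s ≤ M)
    (hA : l1 + l2 ≤ A) (hB : l1 + l3 ≤ B) (hE : l2 + l3 ≤ E) (hM : 2 * M ≤ A + B + E)
    (hM1 : M + l1 ≤ A + B) (hM2 : M + l2 ≤ A + E) (hM3 : M + l3 ≤ B + E)
    (hi : ∀ i ∈ I, i ≠ i0 → p i ≤ l1 ∧ q i ≤ l2 ∧ r i ≤ l3 ∧ t i ≤ M)
    (g1 : M + p i0 ≤ A + B) (g2 : M + q i0 ≤ A + E) (g3 : M + r i0 ≤ B + E)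
    (g4 : M + t i0 ≤ A + B + E) : Good I p q r t A B E s := by
  have hw3a : l3 ≤ max l3 (M - A) := le_max_left _ _
  have hw3b : M - A ≤ max l3 (M - A) := le_max_right _ _
  have hw2a : l2 ≤ max l2 (M - B) := le_max_left _ _
  have hw2b : M - B ≤ max l2 (M - B) := le_max_right _ _
  have k1 : max l2 (M - B) + max l3 (M - A) ≤ M - l1 := by
    rcases max_choice l2 (M - B) with h | h <;> rcases max_choice l3 (M - A) with h' | h' <;>
      rw [h, h'] <;> linarith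
  have k2 : max l2 (M - B) + max l3 (M - A) ≤ E := by
    rcases max_choice l2 (M - B) with h | h <;> rcases max_choice l3 (M - A) with h' | h' <;>
      rw [h, h'] <;> linarith
  refine ⟨i0, hi0, M - max l2 (M - B) - max l3 (M - A), max l2 (M - B), max l3 (M - A),
    by linarith, by linarith, by linarith, by linarith, by linarith, k2, by linarith,
    fun i hiI hne => ?_, by linarith, by linarith, by linarith, by linarith⟩
  obtain ⟨a1, a2, a3, a4⟩ := hi i hiI hne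
  exact ⟨by linarith, by linarith, by linarith, by linarith⟩

/-- the maxima over the other indices -/
lemma exists_tops {I : Finset ι} (p q r t : ι → ℝ) (i0 : ι) (hI : (I.erase i0).Nonempty) :
    ∃ i1 ∈ I, ∃ i2 ∈ I, ∃ i3 ∈ I, ∃ i4 ∈ I, i1 ≠ i0 ∧ i2 ≠ i0 ∧ i3 ≠ i0 ∧ i4 ≠ i0 ∧
      ∀ i ∈ I, i ≠ i0 → p i ≤ p i2 ∧ q i ≤ q i3 ∧ r i ≤ r i4 ∧ t i ≤ t i1 := by
  obtain ⟨i1, h1, h1'⟩ := exists_max_image _ t hI
  obtain ⟨i2, h2, h2'⟩ := exists_max_image _ p hI
  obtain ⟨i3, h3, h3'⟩ := exists_max_image _ q hI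
  obtain ⟨i4, h4, h4'⟩ := exists_max_image _ r hI
  rw [mem_erase] at h1 h2 h3 h4
  refine ⟨i1, h1.2, i2, h2.2, i3, h3.2, i4, h4.2, h1.1, h2.1, h3.1, h4.1, fun i hi hne => ?_⟩
  have hm : i ∈ I.erase i0 := mem_erase.2 ⟨hne, hi⟩
  exact ⟨h2' i hm, h3' i hm, h4' i hm, h1' i hm⟩

/-- The case in which the cross inequalities hold without restriction. -/
lemma good_of_all {I : Finset ι} {p q r t : ι → ℝ} {A B E s : ℝ} (h : Data I p q r t A B E s)
    (hA : ∀ i ∈ I, ∀ j ∈ I, p i + q j ≤ A) (hB : ∀ i ∈ I, ∀ j ∈ I, p i + r j ≤ B)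
    (hE : ∀ i ∈ I, ∀ j ∈ I, q i + r j ≤ E) (i0 : ι) (hi0 : i0 ∈ I)
    (hI : (I.erase i0).Nonempty) : Good I p q r t A B E s := by
  obtain ⟨i1, h1, i2, h2, i3, h3, i4, h4, n1, n2, n3, n4, htop⟩ := exists_tops p q r t i0 hI
  have a01 := h.A3 i1 h1
  have a02 := h.B3 i1 h1
  have a03 := h.E3 i1 h1
  have a04 := h.A3 i0 hi0
  have a05 := h.B3 i0 hi0
  have a06 := h.E3 i0 hi0
  have b01 := hA i1 h1 i1 h1
  have b02 := hB i1 h1 i1 h1
  have b03 := hE i1 h1 i1 h1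
  have c1 := h.p0 i2 h2
  have c2 := h.q0 i3 h3
  have c3 := h.r0 i4 h4
  have c1' := h.p0 i0 hi0
  have c2' := h.q0 i0 hi0
  have c3' := h.r0 i0 hi0
  have hs := h.s0
  have d1 := h.ps i0 hi0
  have d2 := h.qs i0 hi0
  have d3 := h.rs i0 hi0
  have e1 := h.pq i0 hi0
  have e2 := h.pr i0 hi0
  have e3 := h.qr i0 hi0
  have s2 := h.rs i2 h2
  have s2' := h.A3 i2 h2
  have s2'' := h.B3 i2 h2
  have s2''' := h.pq i2 h2
  have s3 := h.rs i3 h3
  have s3' := h.A3 i3 h3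
  have s3'' := h.E3 i3 h3
  have s3''' := h.pq i3 h3
  have s4 := h.qs i4 h4
  have s4' := h.B3 i4 h4
  have s4'' := h.E3 i4 h4
  have s4''' := h.pr i4 h4
  have f1 := hB i2 h2 i1 h1
  have f1' := hB i0 hi0 i1 h1
  have f2 := hE i3 h3 i1 h1
  have f2' := hE i0 hi0 i1 h1
  have f3 := hE i1 h1 i4 h4
  have f3' := hE i1 h1 i0 hi0
  have g12 := hA i2 h2 i3 h3
  have g13 := hB i2 h2 i4 h4
  have g23 := hE i3 h3 i4 h4
  have g02 := hA i0 hi0 i3 h3
  have g03 := hB i0 hi0 i4 h4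
  have g10 := hA i2 h2 i0 hi0
  have g30 := hE i0 hi0 i4 h4
  have g20 := hB i2 h2 i0 hi0
  have g20' := hE i3 h3 i0 hi0
  have key : ∀ M : ℝ, (M = t i1 ∨ M = s ∨ M = p i2 + q i3 + r i4) →
      2 * M ≤ A + B + E ∧ M + p i2 ≤ A + B ∧ M + q i3 ≤ A + E ∧ M + r i4 ≤ B + E ∧
      M + p i0 ≤ A + B ∧ M + q i0 ≤ A + E ∧ M + r i0 ≤ B + E ∧ M + t i0 ≤ A + B + E := by
    rintro M (rfl | rfl | rfl)
    · refine ⟨by linarith, by linarith, by linarith, by linarith, by linarith, by linarith,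
        by linarith, by linarith⟩
    · refine ⟨by linarith, by linarith, by linarith, by linarith, by linarith, by linarith,
        by linarith, by linarith⟩
    · refine ⟨by linarith, by linarith, by linarith, by linarith, by linarith, by linarith,
        by linarith, by linarith⟩
  set M := max (t i1) (max s (p i2 + q i3 + r i4)) with hM
  have hMc : M = t i1 ∨ M = s ∨ M = p i2 + q i3 + r i4 := by
    rcases max_choice (t i1) (max s (p i2 + q i3 + r i4)) with h | h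
    · exact Or.inl h
    · rcases max_choice s (p i2 + q i3 + r i4) with h' | h'
      · exact Or.inr (Or.inl (h.trans h'))
      · exact Or.inr (Or.inr (h.trans h'))
  obtain ⟨k1, k2, k3, k4, k5, k6, k7, k8⟩ := key M hMc
  have m1 : t i1 ≤ M := le_max_left _ _
  have m2 : s ≤ M := (le_max_left _ _).trans (le_max_right _ _)
  have m3 : p i2 + q i3 + r i4 ≤ M := (le_max_right _ _).trans (le_max_right _ _)
  exact weights i0 hi0 (p i2) (q i3) (r i4) M c1 c2 c3 m3 m2 g12 g13 g23 k1 k2 k3 k4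
    (fun i hi hne => ⟨(htop i hi hne).1, (htop i hi hne).2.1, (htop i hi hne).2.2.1,
      (htop i hi hne).2.2.2.trans m1⟩) k5 k6 k7 k8

/-- The case in which `i0` is a top index of `p` and of `q`. -/
lemma good_of_two {I : Finset ι} {p q r t : ι → ℝ} {A B E s : ℝ} (h : Data I p q r t A B E s)
    (i0 : ι) (hi0 : i0 ∈ I) (hI : (I.erase i0).Nonempty)
    (hp : ∀ i ∈ I, p i ≤ p i0) (hq : ∀ i ∈ I, q i ≤ q i0) : Good I p q r t A B E s := by
  obtain ⟨i1, h1, i2, h2, i3, h3, i4, h4, n1, n2, n3, n4, htop⟩ := exists_tops p q r t i0 hI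
  have P1 := hp i1 h1
  have P2 := hp i2 h2
  have Q1 := hq i1 h1
  have Q3 := hq i3 h3
  have a01 := h.A3 i1 h1
  have a02 := h.B3 i1 h1
  have a03 := h.E3 i1 h1
  have a04 := h.A3 i0 hi0
  have a05 := h.B3 i0 hi0
  have a06 := h.E3 i0 hi0
  have c1 := h.p0 i2 h2
  have c2 := h.q0 i3 h3
  have c3 := h.r0 i4 h4
  have c1' := h.p0 i0 hi0
  have c2' := h.q0 i0 hi0
  have c3' := h.r0 i0 hi0
  have hs := h.s0
  have d1 := h.ps i0 hi0
  have d2 := h.qs i0 hi0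
  have d3 := h.rs i0 hi0
  have e1 := h.pq i0 hi0
  have e2 := h.pr i0 hi0
  have e3 := h.qr i0 hi0
  have s4 := h.qs i4 h4
  have s4' := h.B3 i4 h4
  have s4'' := h.E3 i4 h4
  have s4''' := h.pr i4 h4
  have x1 := h.B4 i0 hi0 i1 h1 (Ne.symm n1)
  have x2 := h.E4 i0 hi0 i1 h1 (Ne.symm n1)
  have x3 := h.E4 i1 h1 i0 hi0 n1
  have y1 := h.A4 i0 hi0 i3 h3 (Ne.symm n3)
  have y2 := h.B4 i0 hi0 i4 h4 (Ne.symm n4)
  have y3 := h.E4 i0 hi0 i4 h4 (Ne.symm n4)
  have z1 := h.A4 i2 h2 i0 hi0 n2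
  have z2 := h.B4 i2 h2 i0 hi0 n2
  have z3 := h.E4 i3 h3 i0 hi0 n3
  have g12 : p i2 + q i3 ≤ A := by linarith
  have g13 : p i2 + r i4 ≤ B := by linarith
  have g23 : q i3 + r i4 ≤ E := by linarith
  have r4 : t i1 + r i4 ≤ B + E := by
    by_cases h14 : i1 = i4
    · subst h14; linarith
    · have := h.E4 i1 h1 i4 h4 h14
      linarith
  have key : ∀ M : ℝ, (M = t i1 ∨ M = s ∨ M = p i2 + q i3 + r i4) →
      2 * M ≤ A + B + E ∧ M + p i2 ≤ A + B ∧ M + q i3 ≤ A + E ∧ M + r i4 ≤ B + E ∧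
      M + p i0 ≤ A + B ∧ M + q i0 ≤ A + E ∧ M + r i0 ≤ B + E ∧ M + t i0 ≤ A + B + E := by
    rintro M (rfl | rfl | rfl)
    · refine ⟨by linarith, by linarith, by linarith, r4, by linarith, by linarith,
        by linarith, by linarith⟩
    · refine ⟨by linarith, by linarith, by linarith, by linarith, by linarith, by linarith,
        by linarith, by linarith⟩
    · refine ⟨by linarith, by linarith, by linarith, by linarith, by linarith, by linarith,
        by linarith, by linarith⟩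
  set M := max (t i1) (max s (p i2 + q i3 + r i4)) with hM
  have hMc : M = t i1 ∨ M = s ∨ M = p i2 + q i3 + r i4 := by
    rcases max_choice (t i1) (max s (p i2 + q i3 + r i4)) with h | h
    · exact Or.inl h
    · rcases max_choice s (p i2 + q i3 + r i4) with h' | h'
      · exact Or.inr (Or.inl (h.trans h'))
      · exact Or.inr (Or.inr (h.trans h'))
  obtain ⟨k1, k2, k3, k4, k5, k6, k7, k8⟩ := key M hMc
  have m1 : t i1 ≤ M := le_max_left _ _
  have m2 : s ≤ M := (le_max_left _ _).trans (le_max_right _ _)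
  have m3 : p i2 + q i3 + r i4 ≤ M := (le_max_right _ _).trans (le_max_right _ _)
  exact weights i0 hi0 (p i2) (q i3) (r i4) M c1 c2 c3 m3 m2 g12 g13 g23 k1 k2 k3 k4
    (fun i hi hne => ⟨(htop i hi hne).1, (htop i hi hne).2.1, (htop i hi hne).2.2.1,
      (htop i hi hne).2.2.2.trans m1⟩) k5 k6 k7 k8

/-- **The optimisation lemma.** -/
theorem good {I : Finset ι} {p q r t : ι → ℝ} {A B E s : ℝ} (h : Data I p q r t A B E s)
    (hI : 2 ≤ I.card) : Good I p q r t A B E s := by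
  have hne : I.Nonempty := card_pos.1 (by omega)
  have her : ∀ i ∈ I, (I.erase i).Nonempty := fun i hi =>
    card_pos.1 (by rw [card_erase_of_mem hi]; omega)
  obtain ⟨ip, hip, hp⟩ := exists_max_image I p hne
  obtain ⟨iq, hiq, hq⟩ := exists_max_image I q hne
  obtain ⟨ir, hir, hr⟩ := exists_max_image I r hne
  by_cases h1 : ip = iq
  · subst h1
    exact good_of_two h ip hip (her ip hip) hp hq
  by_cases h2 : ip = ir
  · subst h2
    exact (good_of_two h.swapAB ip hip (her ip hip) hp hr).swapAB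
  by_cases h3 : iq = ir
  · subst h3
    exact (good_of_two h.swapAE iq hiq (her iq hiq) hr hq).swapAE
  refine good_of_all h (fun i hi j hj => ?_) (fun i hi j hj => ?_) (fun i hi j hj => ?_) ip hip
    (her ip hip)
  · have := h.A4 ip hip iq hiq h1
    have := hp i hi
    have := hq j hj
    linarith
  · have := h.B4 ip hip ir hir h2
    have := hp i hi
    have := hr j hj
    linarith
  · have := h.E4 iq hiq ir hir h3
    have := hq i hi
    have := hr j hj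
    linarith

end Pool.Agent.TH438.FC
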