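import Pool.Agent.TH438.FC.Core

set_option autoImplicit false
set_option linter.unusedVariables false

/-!
# Three moving marks
-/

namespace Pool.Agent.TH438.FC

open Finset Pool.Agent.Results.MP_23e236_ag.CollisionColouring

variable {p : ℕ}

/-- The indicator of the sets containing `x` and `y`. -/
def ind (x y : Fin p) (S : Finset (Fin p)) : ℝ := if x ∈ S ∧ y ∈ S then 1 else 0

lemma bal_ind {m : Finset (Fin p) → ℕ} {d : ℕ} (hm : IsCurve m d) (x y : Fin p) (hxy : x ≠ y) :
    Bal m d (ind x y) := by
  have h1 := bal_pair hm (fun u v => if u = x ∧ v = y then 1 else 0) (fun u => by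
    rw [if_neg]; rintro ⟨rfl, h⟩; exact hxy h)
  have h2 : (fun S : Finset (Fin p) => ∑ u ∈ S, ∑ v ∈ S, if u = x ∧ v = y then (1 : ℝ) else 0) =
      ind x y := by
    funext S
    unfold ind
    by_cases hx : x ∈ S
    · rw [sum_eq_single x]
      · by_cases hy : y ∈ S
        · rw [sum_eq_single y]
          · simp [hx, hy]
          · intro v _ hv
            simp [hv]
          · intro h; exact absurd hy h
        · rw [if_neg (fun h => hy h.2)]
          refine sum_eq_zero fun v hv => ?_
          rw [if_neg]
          rintro ⟨_, rfl⟩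
          exact hy hv
      · intro u _ hu
        simp [hu]
      · intro h; exact absurd hx h
    · rw [if_neg (fun h => hx h.1)]
      refine sum_eq_zero fun u hu => sum_eq_zero fun v _ => ?_
      rw [if_neg]
      rintro ⟨rfl, _⟩
      exact hx hu
  rwa [h2] at h1

lemma Bal.add {m : Finset (Fin p) → ℕ} {d : ℕ} {L L' : Finset (Fin p) → ℝ} (h : Bal m d L)
    (h' : Bal m d L') : Bal m d fun S => L S + L' S := by
  unfold Bal at *
  rw [mul_add, ← h, ← h', ← sum_add_distrib]
  exact sum_congr rfl fun S _ => by ring

lemma Bal.smul {m : Finset (Fin p) → ℕ} {d : ℕ} {L : Finset (Fin p) → ℝ} (h : Bal m d L)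
    (r : ℝ) : Bal m d fun S => r * L S := by
  unfold Bal at *
  rw [mul_left_comm, ← h, mul_sum]
  exact sum_congr rfl fun S _ => by ring

lemma Bal.sum {m : Finset (Fin p) → ℕ} {d : ℕ} {κ : Type} (s : Finset κ)
    {L : κ → Finset (Fin p) → ℝ} (h : ∀ j ∈ s, Bal m d (L j)) :
    Bal m d fun S => ∑ j ∈ s, L j S := by
  unfold Bal at *
  rw [mul_sum, ← sum_congr rfl h, sum_comm]
  exact sum_congr rfl fun S _ => by rw [mul_sum]

/-- The part of the gauge of the mark `x` and the fixed marks. -/
def T (K : Finset (Fin p)) (g : Fin p → ℝ) (x : Fin p) (S : Finset (Fin p)) : ℝ :=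
  ∑ j ∈ K, g j * ind j x S

lemma T_empty {K : Finset (Fin p)} (g : Fin p → ℝ) (x : Fin p) {S : Finset (Fin p)}
    (h : ∀ j ∈ K, j ∉ S) : T K g x S = 0 := by
  unfold T
  refine sum_eq_zero fun j hj => ?_
  unfold ind
  rw [if_neg (fun h' => h j hj h'.1), mul_zero]

lemma T_single {K : Finset (Fin p)} (g : Fin p → ℝ) (x : Fin p) {S : Finset (Fin p)}
    {j0 : Fin p} (hj0 : j0 ∈ K) (h : ∀ j ∈ K, j ∈ S ↔ j = j0) :
    T K g x S = g j0 * (if x ∈ S then 1 else 0) := by
  unfold T
  rw [sum_eq_single j0]
  · unfold ind
    by_cases hx : x ∈ S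
    · rw [if_pos ⟨(h j0 hj0).2 rfl, hx⟩, if_pos hx]
    · rw [if_neg (fun h' => hx h'.2), if_neg hx]
  · intro j hj hne
    unfold ind
    rw [if_neg (fun h' => hne ((h j hj).1 h'.1)), mul_zero]
  · intro h'; exact absurd hj0 h'

lemma T_full {K : Finset (Fin p)} (g : Fin p → ℝ) (x : Fin p) {S : Finset (Fin p)}
    (h : K ⊆ S) : T K g x S = (∑ j ∈ K, g j) * (if x ∈ S then 1 else 0) := by
  unfold T
  rw [sum_mul]
  refine sum_congr rfl fun j hj => ?_
  unfold ind
  by_cases hx : x ∈ S
  · rw [if_pos ⟨h hj, hx⟩, if_pos hx]
  · rw [if_neg (fun h' => hx h'.2), if_neg hx]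

lemma bal_T {m : Finset (Fin p) → ℕ} {d : ℕ} (hm : IsCurve m d) {K : Finset (Fin p)}
    (g : Fin p → ℝ) (x : Fin p) (hx : x ∉ K) : Bal m d (T K g x) :=
  Bal.sum K fun j hj => (bal_ind hm j x (fun h => hx (h ▸ hj))).smul (g j)

/-- The gauge criterion for three moving marks. -/
theorem three_aux {c : Finset (Fin p) → ℝ} (hc : IsDivisor c) {m : Finset (Fin p) → ℕ} {d : ℕ}
    (hm : IsCurve m d) (K : Finset (Fin p)) (hK : 2 ≤ K.card) (a b e : Fin p) (ha : a ∉ K)
    (hb : b ∉ K) (he : e ∉ K) (hab : a ≠ b) (hae : a ≠ e) (hbe : b ≠ e)
    (hcov : ∀ v, v ∈ K ∨ v = a ∨ v = b ∨ v = e)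
    (hfix : ∀ S, m S ≠ 0 → (S ∩ K).card ≤ 1 ∨ K ⊆ S)
    (w1 w2 w3 : ℝ) (ga gb ge : Fin p → ℝ) (hw1 : 0 ≤ w1) (hw2 : 0 ≤ w2) (hw3 : 0 ≤ w3)
    (hga : ∀ j ∈ K, 0 ≤ ga j) (hgb : ∀ j ∈ K, 0 ≤ gb j) (hge : ∀ j ∈ K, 0 ≤ ge j)
    (c1 : ∀ j ∈ K, pd (H c) a b (some j) ≤ w1 + ga j + gb j)
    (c2 : ∀ j ∈ K, pd (H c) a e (some j) ≤ w2 + ga j + ge j)
    (c3 : ∀ j ∈ K, pd (H c) b e (some j) ≤ w3 + gb j + ge j)
    (c4 : ∀ j ∈ K, td (H c) a b e (some j) ≤ w1 + w2 + w3 + ga j + gb j + ge j)
    (c5 : H c {a, b, e} ≤ w1 + w2 + w3)
    (d1 : w1 + w2 + ∑ j ∈ K, ga j ≤ Ad (H c) a) (d2 : w1 + w3 + ∑ j ∈ K, gb j ≤ Ad (H c) b)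
    (d3 : w2 + w3 + ∑ j ∈ K, ge j ≤ Ad (H c) e)
    (e1 : pd (H c) a b none ≤ Ad (H c) a + Ad (H c) b -
      (w1 + w2 + w3 + ∑ j ∈ K, ga j + ∑ j ∈ K, gb j))
    (e2 : pd (H c) a e none ≤ Ad (H c) a + Ad (H c) e -
      (w1 + w2 + w3 + ∑ j ∈ K, ga j + ∑ j ∈ K, ge j))
    (e3 : pd (H c) b e none ≤ Ad (H c) b + Ad (H c) e -
      (w1 + w2 + w3 + ∑ j ∈ K, gb j + ∑ j ∈ K, ge j))
    (e4 : td (H c) a b e none ≤ Ad (H c) a + Ad (H c) b + Ad (H c) e -
      (w1 + w2 + w3 + ∑ j ∈ K, ga j + ∑ j ∈ K, gb j + ∑ j ∈ K, ge j)) :
    0 ≤ degree c m := by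
  have hsm := H_small hc
  set L : Finset (Fin p) → ℝ := fun S => w1 * ind a b S + w2 * ind a e S + w3 * ind b e S +
    T K ga a S + T K gb b S + T K ge e S with hL
  have hbal : Bal m d L :=
    (((((bal_ind hm a b hab).smul w1).add ((bal_ind hm a e hae).smul w2)).add
      ((bal_ind hm b e hbe).smul w3)).add (bal_T hm ga a ha)).add (bal_T hm gb b hb) |>.add
      (bal_T hm ge e he)
  have hLu : L univ = w1 + w2 + w3 + ∑ j ∈ K, ga j + ∑ j ∈ K, gb j + ∑ j ∈ K, ge j := by
    rw [hL]
    simp only [T_full _ _ (subset_univ K)]
    simp [ind]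
  refine dominate hc hm K hK L hbal fun S hS => ?_
  rcases hfix S hS with hfx | hfx
  · left
    refine ⟨hfx, ?_⟩
    rcases Nat.lt_or_ge (S ∩ K).card 1 with h0 | h1
    · -- no fixed mark
      have h2 : S ∩ K = ∅ := card_eq_zero.1 (by omega)
      have h3 : ∀ j ∈ K, j ∉ S := fun j hj hjS => by
        have : j ∈ S ∩ K := mem_inter.2 ⟨hjS, hj⟩
        rw [h2] at this
        exact absurd this (notMem_empty _)
      have hLS : L S = w1 * ind a b S + w2 * ind a e S + w3 * ind b e S := by
        simp only [hL, T_empty _ _ h3, add_zero]
      have hnn : 0 ≤ L S := by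
        rw [hLS]; unfold ind
        split_ifs <;> nlinarith
      by_cases haS : a ∈ S
      · by_cases hbS : b ∈ S
        · by_cases heS : e ∈ S
          · have hSe : S = {a, b, e} := by
              ext v
              simp only [mem_insert, mem_singleton]
              rcases hcov v with h | h | h | h
              · have := h3 v h
                grind
              · subst h; tauto
              · subst h; tauto
              · subst h; tauto
            rw [hLS]
            simp only [ind, haS, hbS, heS, and_self, if_true, mul_one]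
            rw [hSe]
            exact c5
          · rw [hsm S]
            · exact hnn
            · refine (card_le_card (t := {a, b}) fun v hv => ?_).trans card_le_two
              rcases hcov v with h | h | h | h
              · exact absurd hv (h3 v h)
              · simp [h]
              · simp [h]
              · exact absurd (h ▸ hv) heS
        · rw [hsm S]
          · exact hnn
          · refine (card_le_card (t := {a, e}) fun v hv => ?_).trans card_le_two
            rcases hcov v with h | h | h | h
            · exact absurd hv (h3 v h)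
            · simp [h]
            · exact absurd (h ▸ hv) hbS
            · simp [h]
      · rw [hsm S]
        · exact hnn
        · refine (card_le_card (t := {b, e}) fun v hv => ?_).trans card_le_two
          rcases hcov v with h | h | h | h
          · exact absurd hv (h3 v h)
          · exact absurd (h ▸ hv) haS
          · simp [h]
          · simp [h]
    · -- one fixed mark
      obtain ⟨j0, hj0⟩ := card_eq_one.1 (show (S ∩ K).card = 1 by omega)
      have hj0K : j0 ∈ K := by
        have : j0 ∈ S ∩ K := by rw [hj0]; exact mem_singleton_self _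
        exact (mem_inter.1 this).2
      have h3 : ∀ j ∈ K, j ∈ S ↔ j = j0 := by
        intro j hj
        constructor
        · intro hjS
          have : j ∈ S ∩ K := mem_inter.2 ⟨hjS, hj⟩
          rw [hj0] at this
          exact mem_singleton.1 this
        · rintro rfl
          have : j ∈ S ∩ K := by rw [hj0]; exact mem_singleton_self _
          exact (mem_inter.1 this).1
      have hj0S : j0 ∈ S := (h3 j0 hj0K).2 rfl
      have hLS : L S = w1 * ind a b S + w2 * ind a e S + w3 * ind b e S +
          ga j0 * (if a ∈ S then 1 else 0) + gb j0 * (if b ∈ S then 1 else 0) +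
          ge j0 * (if e ∈ S then 1 else 0) := by
        simp only [hL, T_single _ _ hj0K h3]
      have g1 := hga j0 hj0K
      have g2 := hgb j0 hj0K
      have g3 := hge j0 hj0K
      have hnn : 0 ≤ L S := by
        rw [hLS]; unfold ind
        split_ifs <;> nlinarith
      have hja : j0 ≠ a := fun h => ha (h ▸ hj0K)
      have hjb : j0 ≠ b := fun h => hb (h ▸ hj0K)
      have hje : j0 ≠ e := fun h => he (h ▸ hj0K)
      by_cases haS : a ∈ S <;> by_cases hbS : b ∈ S <;> by_cases heS : e ∈ S
      · have hSe : S = {j0, a, b, e} := by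
          ext v
          simp only [mem_insert, mem_singleton]
          rcases hcov v with h | h | h | h
          · have := h3 v h
            grind
          · subst h; tauto
          · subst h; tauto
          · subst h; tauto
        have hh : H c S = td (H c) a b e (some j0) := by rw [hSe]; rfl
        have := c4 j0 hj0K
        rw [hLS, hh]
        simp only [ind, haS, hbS, heS, and_self, if_true, mul_one]
        linarith
      · have hSe : S = {j0, a, b} := by
          ext v
          simp only [mem_insert, mem_singleton]
          rcases hcov v with h | h | h | h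
          · have := h3 v h
            grind
          · subst h; tauto
          · subst h; tauto
          · subst h; grind
        have hh : H c S = pd (H c) a b (some j0) := by rw [hSe]; rfl
        have := c1 j0 hj0K
        rw [hLS, hh]
        simp only [ind, haS, hbS, heS, and_self, and_false, false_and, if_true, if_false, mul_one,
          mul_zero]
        linarith
      · have hSe : S = {j0, a, e} := by
          ext v
          simp only [mem_insert, mem_singleton]
          rcases hcov v with h | h | h | h
          · have := h3 v h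
            grind
          · subst h; tauto
          · subst h; grind
          · subst h; tauto
        have hh : H c S = pd (H c) a e (some j0) := by rw [hSe]; rfl
        have := c2 j0 hj0K
        rw [hLS, hh]
        simp only [ind, haS, hbS, heS, and_self, and_false, false_and, if_true, if_false, mul_one,
          mul_zero]
        linarith
      · rw [hsm S]
        · exact hnn
        · refine (card_le_card (t := {j0, a}) fun v hv => ?_).trans card_le_two
          rcases hcov v with h | h | h | h
          · simp [(h3 v h).1 hv]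
          · simp [h]
          · exact absurd (h ▸ hv) hbS
          · exact absurd (h ▸ hv) heS
      · have hSe : S = {j0, b, e} := by
          ext v
          simp only [mem_insert, mem_singleton]
          rcases hcov v with h | h | h | h
          · have := h3 v h
            grind
          · subst h; grind
          · subst h; tauto
          · subst h; tauto
        have hh : H c S = pd (H c) b e (some j0) := by rw [hSe]; rfl
        have := c3 j0 hj0K
        rw [hLS, hh]
        simp only [ind, haS, hbS, heS, and_self, and_false, false_and, if_true, if_false, mul_one,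
          mul_zero]
        linarith
      · rw [hsm S]
        · exact hnn
        · refine (card_le_card (t := {j0, b}) fun v hv => ?_).trans card_le_two
          rcases hcov v with h | h | h | h
          · simp [(h3 v h).1 hv]
          · exact absurd (h ▸ hv) haS
          · simp [h]
          · exact absurd (h ▸ hv) heS
      · rw [hsm S]
        · exact hnn
        · refine (card_le_card (t := {j0, e}) fun v hv => ?_).trans card_le_two
          rcases hcov v with h | h | h | h
          · simp [(h3 v h).1 hv]
          · exact absurd (h ▸ hv) haS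
          · exact absurd (h ▸ hv) hbS
          · simp [h]
      · rw [hsm S]
        · exact hnn
        · refine (card_le_card (t := {j0, a}) fun v hv => ?_).trans card_le_two
          rcases hcov v with h | h | h | h
          · simp [(h3 v h).1 hv]
          · exact absurd (h ▸ hv) haS
          · exact absurd (h ▸ hv) hbS
          · exact absurd (h ▸ hv) heS
  · right
    refine ⟨hfx, ?_⟩
    have hLS : L S = w1 * ind a b S + w2 * ind a e S + w3 * ind b e S +
        (∑ j ∈ K, ga j) * (if a ∈ S then 1 else 0) + (∑ j ∈ K, gb j) * (if b ∈ S then 1 else 0) +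
        (∑ j ∈ K, ge j) * (if e ∈ S then 1 else 0) := by
      simp only [hL, T_full _ _ hfx]
    rw [hLS, hLu]
    simp only [Ad, pd, td] at d1 d2 d3 e1 e2 e3 e4
    by_cases haS : a ∈ S <;> by_cases hbS : b ∈ S <;> by_cases heS : e ∈ S <;>
      simp only [ind, haS, hbS, heS, and_self, and_false, false_and, if_true, if_false, mul_one,
          mul_zero]
    · have hSe : S = univ := by
        ext v
        simp only [mem_univ, iff_true]
        rcases hcov v with h | h | h | h
        · exact hfx h
        all_goals (subst h; assumption)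
      rw [hSe]
      linarith
    · have hSe : S = univ.erase e := by
        ext v
        simp only [mem_univ, mem_erase]
        rcases hcov v with h | h | h | h
        · have := hfx h; grind
        all_goals (subst h; grind)
      rw [hSe]
      linarith
    · have hSe : S = univ.erase b := by
        ext v
        simp only [mem_univ, mem_erase]
        rcases hcov v with h | h | h | h
        · have := hfx h; grind
        all_goals (subst h; grind)
      rw [hSe]
      linarith
    · have hSe : S = (univ.erase b).erase e := by
        ext v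
        simp only [mem_univ, mem_erase]
        rcases hcov v with h | h | h | h
        · have := hfx h; grind
        all_goals (subst h; grind)
      rw [hSe]
      linarith
    · have hSe : S = univ.erase a := by
        ext v
        simp only [mem_univ, mem_erase]
        rcases hcov v with h | h | h | h
        · have := hfx h; grind
        all_goals (subst h; grind)
      rw [hSe]
      linarith
    · have hSe : S = (univ.erase a).erase e := by
        ext v
        simp only [mem_univ, mem_erase]
        rcases hcov v with h | h | h | h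
        · have := hfx h; grind
        all_goals (subst h; grind)
      rw [hSe]
      linarith
    · have hSe : S = (univ.erase a).erase b := by
        ext v
        simp only [mem_univ, mem_erase]
        rcases hcov v with h | h | h | h
        · have := hfx h; grind
        all_goals (subst h; grind)
      rw [hSe]
      linarith
    · have hSe : S = ((univ.erase a).erase b).erase e := by
        ext v
        simp only [mem_univ, mem_erase]
        rcases hcov v with h | h | h | h
        · have := hfx h; grind
        all_goals (subst h; grind)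
      rw [hSe]
      linarith

/-- **Three moving marks.** -/
theorem three {c : Finset (Fin p) → ℝ} (hc : IsDivisor c) (hF : FNef c)
    {m : Finset (Fin p) → ℕ} {d : ℕ} (hm : IsCurve m d) (K : Finset (Fin p)) (hK : 2 ≤ K.card)
    (a b e : Fin p) (ha : a ∉ K) (hb : b ∉ K) (he : e ∉ K) (hab : a ≠ b) (hae : a ≠ e)
    (hbe : b ≠ e) (hcov : ∀ v, v ∈ K ∨ v = a ∨ v = b ∨ v = e)
    (hfix : ∀ S, m S ≠ 0 → (S ∩ K).card ≤ 1 ∨ K ⊆ S) : 0 ≤ degree c m := by
  have hdat := data (H c) (H_small hc) (H_F hF) K a b e ha hb he hab hae hbe
  obtain ⟨i0, hi0, w1, w2, w3, h1, h2, h3, h4, h5, h6, h7, h8, h9, h10, h11, h12⟩ :=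
    good hdat (by rw [card_insertNone]; omega)
  cases i0 with
  | none =>
    have h8' : ∀ j ∈ K, pd (H c) a b (some j) ≤ w1 ∧ pd (H c) a e (some j) ≤ w2 ∧
        pd (H c) b e (some j) ≤ w3 ∧ td (H c) a b e (some j) ≤ w1 + w2 + w3 := fun j hj =>
      h8 (some j) (some_mem_insertNone.2 hj) (by simp)
    refine three_aux hc hm K hK a b e ha hb he hab hae hbe hcov hfix w1 w2 w3 (fun _ => 0)
      (fun _ => 0) (fun _ => 0) h1 h2 h3 (fun _ _ => le_rfl) (fun _ _ => le_rfl)
      (fun _ _ => le_rfl) (fun j hj => ?_) (fun j hj => ?_) (fun j hj => ?_) (fun j hj => ?_)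
      h7 ?_ ?_ ?_ ?_ ?_ ?_ ?_
    · have := (h8' j hj).1; linarith
    · have := (h8' j hj).2.1; linarith
    · have := (h8' j hj).2.2.1; linarith
    · have := (h8' j hj).2.2.2; linarith
    all_goals simp only [sum_const_zero, add_zero]; linarith
  | some i =>
    have hiK : i ∈ K := some_mem_insertNone.1 hi0
    have h8' : ∀ j ∈ K, j ≠ i → pd (H c) a b (some j) ≤ w1 ∧ pd (H c) a e (some j) ≤ w2 ∧
        pd (H c) b e (some j) ≤ w3 ∧ td (H c) a b e (some j) ≤ w1 + w2 + w3 := fun j hj hji =>
      h8 (some j) (some_mem_insertNone.2 hj) (by simpa using hji)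
    have h8'' := h8 none (none_mem_insertNone) (by simp)
    have hsum : ∀ r : ℝ, ∑ j ∈ K, (if j = i then r else 0) = r := by
      intro r
      rw [sum_ite_eq' K i fun _ => r, if_pos hiK]
    refine three_aux hc hm K hK a b e ha hb he hab hae hbe hcov hfix w1 w2 w3
      (fun j => if j = i then Ad (H c) a - w1 - w2 else 0)
      (fun j => if j = i then Ad (H c) b - w1 - w3 else 0)
      (fun j => if j = i then Ad (H c) e - w2 - w3 else 0) h1 h2 h3
      (fun j _ => by split_ifs <;> linarith)
      (fun j _ => by split_ifs <;> linarith)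
      (fun j _ => by split_ifs <;> linarith)
      (fun j hj => ?_) (fun j hj => ?_) (fun j hj => ?_) (fun j hj => ?_) h7 ?_ ?_ ?_ ?_ ?_ ?_ ?_
    · split_ifs with hji
      · subst hji; linarith
      · have := (h8' j hj hji).1; linarith
    · split_ifs with hji
      · subst hji; linarith
      · have := (h8' j hj hji).2.1; linarith
    · split_ifs with hji
      · subst hji; linarith
      · have := (h8' j hj hji).2.2.1; linarith
    · split_ifs with hji
      · subst hji; linarith
      · have := (h8' j hj hji).2.2.2; linarith
    all_goals simp only [hsum]; obtain ⟨k1, k2, k3, k4⟩ := h8''; linarith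

end Pool.Agent.TH438.FC
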